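import Pool.Agent.R892.GC.Gold

/-!
# The recursion `a (n) = a (n - 1) - gcd (a (n - 1), n - 1)`, `a (1) = N - 2`: the zero is prime or small
-/

set_option autoImplicit false

namespace Pool.Agent.Results.MP_453f59_nt.LargeZeroPrime

/-- For `N ≥ 4` let `g` be the least index with `a g = 0`. Every prime factor `r` of `g` satisfies
`7 g + 1 ≤ 4 N + 3 r`; so `g` is prime as soon as `7 g + 1 > 4 N + 3 √g`. -/
theorem result (N : ℕ) (hN : 4 ≤ N) (a : ℕ → ℤ) (h1 : a 1 = (N : ℤ) - 2)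
    (h : ∀ n : ℕ, 2 ≤ n → a n = a (n - 1) - ((Int.gcd (a (n - 1)) ((n : ℤ) - 1) : ℕ) : ℤ))
    (g : ℕ) (hg : IsLeast {n : ℕ | 1 ≤ n ∧ a n = 0} g) :
    (∀ r : ℕ, r.Prime → r ∣ g → 7 * g + 1 ≤ 4 * N + 3 * r) ∧
    (4 * N + 3 * Nat.sqrt g < 7 * g + 1 → g.Prime) := by
  obtain ⟨⟨hg1, hg0⟩, hmin⟩ := hg
  have hg2 : 2 ≤ g := by
    by_contra hcon
    have : g = 1 := by omega
    rw [this, h1] at hg0
    omega
  have hno : ∀ n, 2 ≤ n → n < g → a n ≠ 0 := by
    intro n hn hlt h0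
    have := hmin ⟨by omega, h0⟩
    omega
  obtain ⟨hpos, hH⟩ := R892.GC.conv (fun n => (n : ℤ) - 1) a g h (by rw [h1]; omega) hno
  obtain ⟨b, hb⟩ : ∃ b : ℕ → ℕ, b = fun n => (a n).natAbs := ⟨_, rfl⟩
  have hbn : ∀ n, b n = (a n).natAbs := fun n => by rw [hb]
  have H : ∀ n, 1 ≤ n → n < g → b (n + 1) = b n - Nat.gcd (b n) ((fun x => x - 1) (n + 1)) := by
    intro n hn hlt
    rw [hbn, hbn, hH n hn hlt]
    have e : (((n + 1 : ℕ) : ℤ) - 1).natAbs = n + 1 - 1 := by omega
    show _ - Nat.gcd _ (((n + 1 : ℕ) : ℤ) - 1).natAbs = _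
    rw [e]
  have hP : ∀ n, 1 ≤ n → n < g → 0 < b n := by
    intro n hn hlt
    have := hpos n hn hlt
    rw [hbn]
    omega
  have hb0 : b g = 0 := by rw [hbn, hg0]; rfl
  have hb1 : b 1 = N - 2 := by rw [hbn, h1]; omega
  have hper : ∀ r x, r.Prime → 1 ≤ x → (r ∣ (fun x => x - 1) (x + r) ↔ r ∣ (fun x => x - 1) x) := by
    intro r x _ hx
    show r ∣ x + r - 1 ↔ r ∣ x - 1
    have e : x + r - 1 = (x - 1) + r := by omega
    rw [e]
    exact (Nat.dvd_add_iff_left dvd_rfl).symm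
  have main : ∀ r : ℕ, r.Prime → r ∣ g → 7 * g + 1 ≤ 4 * N + 3 * r := by
    intro r hr hrg
    have hr2 := hr.two_le
    have hcore := R892.GC.core (fun x => x - 1) b hper g r hr (by
      show r ∣ g + 1 - 1
      rw [Nat.add_sub_cancel]
      exact hrg) hb0
    rcases Nat.even_or_odd' N with ⟨M, hM | hM⟩
    · have k1 := hcore (g - 1) 1 rfl (by omega) H hP (by
        rw [hb1]
        show ¬ 2 ∣ N - 2 + 1 + 1 - 1
        omega)
      have k2 : (if 3 ∣ b 1 then 0 else 1) ≤ 1 := by split_ifs <;> omega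
      omega
    · have a2 := H 1 le_rfl (by omega)
      have e1 : Nat.gcd (b 1) ((fun x => x - 1) (1 + 1)) = 1 := Nat.gcd_one_right _
      rw [e1, hb1] at a2
      have a2' : b 2 = N - 2 - 1 := a2
      have hg3 : 3 ≤ g := by
        by_contra hcon
        have : g = 2 := by omega
        rw [this] at hb0
        omega
      have a3 := H 2 (by norm_num) (by omega)
      have e2 : Nat.gcd (b 2) ((fun x => x - 1) (2 + 1)) = 2 := by
        show Nat.gcd (b 2) 2 = 2
        apply Nat.gcd_eq_right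
        omega
      rw [e2] at a3
      have a3' : b 3 = b 2 - 2 := a3
      rcases Nat.lt_or_ge 3 g with h3 | h3
      · have k1 := hcore (g - 3) 3 rfl h3 (fun n hn => H n (by omega)) (fun n hn => hP n (by omega)) (by
          show ¬ 2 ∣ b 3 + 3 + 1 - 1
          have := hP 3 (by norm_num) h3
          omega)
        have k2 : (if 3 ∣ b 3 then 0 else 1) ≤ 1 := by split_ifs <;> omega
        have := hP 3 (by norm_num) h3
        omega
      · have hg3' : g = 3 := by omega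
        omega
  refine ⟨main, fun hbig => ?_⟩
  by_contra hnp
  have k1 := main g.minFac (Nat.minFac_prime (by omega)) (Nat.minFac_dvd g)
  have k2 : g.minFac ≤ Nat.sqrt g := by
    rw [Nat.le_sqrt']
    exact Nat.minFac_sq_le_self (by omega) hnp
  omega

end Pool.Agent.Results.MP_453f59_nt.LargeZeroPrime
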